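import Pool.Agent.Q24.PF.Pil2
import Pool.Agent.Q24.PF.Der3

set_option autoImplicit false

/-!
# Finitely generated point stabilizers of projective piles are free factors

Let `F` be a free group (of any rank), `H ≤ F` finitely generated, and suppose that the closure of `H`
in the profinite completion of `F` is the stabilizer of a point of a projective pile
`(profinite completion of F, T)`. Then `H` is a free factor of `F`.

The proof: let `P → Q` be an epimorphism of finite groups, `ρ : F → Q`, and `σ : H → P` a lift of the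
restriction of `ρ`. A rigid embedding problem for the pile with two orbits of cosets shows that `σ`
extends to a lift `F → P` of `ρ` (`ext_of_pile`). For semidirect products this means that the
derivations of `H` into finite modules of `F` extend to `F`. The completion argument of M. Hall and
Lewin for modules over the group algebra `k[F]` of a free group shows that the derivations of `H`
into `k[F]` extend to `F` (`basis_mem_vals`). This gives a derivation `F → k[F]` with the kernel `H`
(`factor_of_ext`), and the kernels of derivations into free modules are free factors (starting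
library, `Helper122.ker_factor`).
-/

namespace Pool.Agent.Results.MP_b4f2f0_al.StabilizersAreFreeFactors

open Pool.Agent.Q24.PF Pool.Agent.Helper122.Cuts

/-- The homomorphism `ι : F → G` is the profinite completion of `F` (where `G` is profinite): it has
a dense image, and all homomorphisms of `F` to finite groups extend to homomorphisms of `G` with open
kernels. -/
structure IsProfiniteCompletion {F G : Type} [Group F] [Group G] [TopologicalSpace G]
    (ι : F →* G) : Prop where
  dense : DenseRange ι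
  extend : ∀ (Q : Type) [Group Q] [Finite Q] (φ : F →* Q),
    ∃ ψ : G →* Q, (∀ f, ψ (ι f) = φ f) ∧ IsOpen (ψ.ker : Set G)

/-- `H` is a free factor of `F`: `F = H * K` for a subgroup `K`. -/
def IsFreeFactor {F : Type} [Group F] (H : Subgroup F) : Prop :=
  ∃ K : Subgroup F, Function.Bijective (Monoid.Coprod.lift H.subtype K.subtype)

theorem mk_mem_range {X : Type} (X₀ : Set X) (L : List (X × Bool)) (hL : ∀ y ∈ L, y.1 ∈ X₀) :
    (FreeGroup.mk L : FreeGroup X) ∈ (FreeGroup.map (Subtype.val : X₀ → X)).range := by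
  induction L with
  | nil => exact one_mem _
  | cons y L ih =>
    have e : (FreeGroup.mk (y :: L) : FreeGroup X) = FreeGroup.mk [y] * FreeGroup.mk L := by
      rw [FreeGroup.mul_mk]
      rfl
    rw [e]
    apply mul_mem
    · refine ⟨FreeGroup.mk [(⟨y.1, hL y List.mem_cons_self⟩, y.2)], ?_⟩
      rw [FreeGroup.map.mk]
      rfl
    · exact ih (fun z hz => hL z (List.mem_cons_of_mem _ hz))

/-- **Finitely generated point stabilizers of projective piles on the profinite completion of a free
group are free factors.** -/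
theorem result (F : Type) [Group F] [IsFreeGroup F] (G : Type) [Group G] [TopologicalSpace G]
    [IsTopologicalGroup G] [CompactSpace G] [T2Space G] [TotallyDisconnectedSpace G]
    (ι : F →* G) (hι : IsProfiniteCompletion ι)
    (T : Type) [TopologicalSpace T] [CompactSpace T] [T2Space T] [TotallyDisconnectedSpace T]
    (𝒢 : Pile G T) (h𝒢 : IsProjective 𝒢) (H : Subgroup F) (hH : H.FG) (t : T)
    (ht : (𝒢.stab t : Set G) = closure (ι '' (H : Set F))) : IsFreeFactor H := by
  classical
  let X := IsFreeGroup.Generators F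
  let e : F ≃* FreeGroup X := IsFreeGroup.toFreeGroup F
  obtain ⟨S0, hS0⟩ := hH
  let X₀ : Set X := {x | ∃ s ∈ S0, ∃ b, (x, b) ∈ (e s).toWord}
  have hX₀ : X₀.Finite := by
    have h1 : X₀ ⊆ ⋃ s ∈ S0, (fun y : X × Bool => y.1) '' {y | y ∈ (e s).toWord} := by
      rintro x ⟨s, hs, b, hb⟩
      rw [Set.mem_iUnion₂]
      exact ⟨s, hs, (x, b), hb, rfl⟩
    refine Set.Finite.subset ?_ h1
    refine S0.finite_toSet.biUnion fun s _ => ?_
    exact (List.finite_toSet (e s).toWord).image _
  have hfin : Finite X₀ := hX₀.to_subtype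
  let j0 : FreeGroup X₀ →* FreeGroup X := FreeGroup.map Subtype.val
  let r0 : FreeGroup X →* FreeGroup X₀ :=
    FreeGroup.lift (fun x => if h : x ∈ X₀ then FreeGroup.of ⟨x, h⟩ else 1)
  have hr0 : ∀ f, r0 (j0 f) = f := by
    have : r0.comp j0 = MonoidHom.id _ := by
      apply FreeGroup.ext_hom
      rintro ⟨x, hx⟩
      rw [MonoidHom.comp_apply]
      simp only [j0, r0, FreeGroup.map.of, FreeGroup.lift_apply_of, MonoidHom.id_apply]
      rw [dif_pos hx]
    exact fun f => DFunLike.congr_fun this f
  let j : FreeGroup X₀ →* F := e.symm.toMonoidHom.comp j0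
  let r : F →* FreeGroup X₀ := r0.comp e.toMonoidHom
  have hr : ∀ f, r (j f) = f := by
    intro f
    change r0 (e (e.symm (j0 f))) = f
    rw [MulEquiv.apply_symm_apply, hr0]
  have hHj : H ≤ j.range := by
    rw [← hS0, Subgroup.closure_le]
    intro s hs
    obtain ⟨f, hf⟩ := mk_mem_range X₀ (e s).toWord (fun y hy => ⟨s, hs, y.2, hy⟩)
    rw [FreeGroup.mk_toWord] at hf
    refine ⟨f, ?_⟩
    change e.symm (j0 f) = s
    rw [MulEquiv.symm_apply_eq]
    exact hf
  let H₀ : Subgroup (FreeGroup X₀) := H.comap j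
  have hH₀ : H₀.FG := by
    have h1 : H₀ = H.map r := by
      ext f
      constructor
      · intro hf
        exact ⟨j f, hf, hr f⟩
      · rintro ⟨h, hh, rfl⟩
        obtain ⟨f, rfl⟩ := hHj hh
        rw [hr]
        exact hh
    rw [h1]
    exact ⟨S0.image r, by rw [Finset.coe_image, ← MonoidHom.map_closure, hS0]⟩
  have hext : Ext (FreeGroup X₀) H₀ := by
    apply ext_of_pile 𝒢 h𝒢 (ι.comp j) ?_ H₀ hH₀ t ?_
    · intro Q _ _ φ
      obtain ⟨ψ, hψ, hψo⟩ := hι.extend Q (φ.comp r)
      refine ⟨ψ, fun f => ?_, hψo⟩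
      rw [MonoidHom.comp_apply, hψ, MonoidHom.comp_apply, hr]
    · rw [ht]
      congr 1
      ext g
      constructor
      · rintro ⟨h, hh, rfl⟩
        obtain ⟨f, rfl⟩ := hHj hh
        exact ⟨f, hh, rfl⟩
      · rintro ⟨f, hf, rfl⟩
        exact ⟨j f, hf, rfl⟩
  obtain ⟨S, T', hS, hST⟩ := factor_of_ext H₀ hH₀ hext
  obtain ⟨e2, he2⟩ := hST.retr
  have hjH : ∀ s ∈ S, j s ∈ H := by
    intro s hs
    have : s ∈ H₀ := by
      rw [← hS.2]
      exact Subgroup.subset_closure hs
    exact this
  let K' : Subgroup F := Subgroup.closure ((j '' (T' \ S)) ∪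
    {f | ∃ x : X, x ∉ X₀ ∧ f = e.symm (FreeGroup.of x)})
  have hKT' : ∀ s ∈ T', s ∉ S → j s ∈ K' := fun s hs hs2 =>
    Subgroup.subset_closure (Or.inl ⟨s, ⟨hs, hs2⟩, rfl⟩)
  have hKX' : ∀ x, x ∉ X₀ → e.symm (FreeGroup.of x) ∈ K' := fun x hx =>
    Subgroup.subset_closure (Or.inr ⟨x, hx, rfl⟩)
  refine ⟨K', ?_⟩
  let C := Monoid.Coprod H K'
  let g0 : ↥(S ∪ T') → C := fun s =>
    if hs : (s : FreeGroup X₀) ∈ S then Monoid.Coprod.inl ⟨j s, hjH _ hs⟩
    else Monoid.Coprod.inr ⟨j s, hKT' _ (s.2.resolve_left hs) hs⟩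
  let Ψ0 : FreeGroup X₀ →* C := ((FreeGroup.lift g0).comp e2.toMonoidHom).comp
    (Subgroup.topEquiv : (⊤ : Subgroup (FreeGroup X₀)) ≃* FreeGroup X₀).symm.toMonoidHom
  have hΨ0 : ∀ s (hs : s ∈ S ∪ T'), Ψ0 s = g0 ⟨s, hs⟩ := by
    intro s hs
    change (FreeGroup.lift g0) (e2 ⟨s, Subgroup.mem_top s⟩) = _
    have := he2 ⟨s, hs⟩ (Subgroup.mem_top s)
    rw [this, FreeGroup.lift_apply_of]
  let Ψ1 : FreeGroup X →* C := FreeGroup.lift (fun x =>
    if hx : x ∈ X₀ then Ψ0 (FreeGroup.of ⟨x, hx⟩)
    else Monoid.Coprod.inr ⟨e.symm (FreeGroup.of x), hKX' x hx⟩)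
  let Ψ : F →* C := Ψ1.comp e.toMonoidHom
  let l : C →* F := Monoid.Coprod.lift H.subtype K'.subtype
  have hΨj : ∀ f, Ψ (j f) = Ψ0 f := by
    have : Ψ.comp j = Ψ0 := by
      apply FreeGroup.ext_hom
      rintro ⟨x, hx⟩
      change Ψ1 (e (e.symm (j0 (FreeGroup.of ⟨x, hx⟩)))) = _
      rw [MulEquiv.apply_symm_apply]
      simp only [j0, Ψ1, FreeGroup.map.of, FreeGroup.lift_apply_of]
      rw [dif_pos hx]
    exact fun f => DFunLike.congr_fun this f
  have hlΨ0 : ∀ f, l (Ψ0 f) = j f := by
    have : l.comp Ψ0 = j := by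
      apply MonoidHom.eq_of_eqOn_dense hST.2
      intro s hs
      rw [MonoidHom.comp_apply, hΨ0 s hs]
      simp only [g0]
      split_ifs with h
      · exact Monoid.Coprod.lift_apply_inl _ _ _
      · exact Monoid.Coprod.lift_apply_inr _ _ _
    exact fun f => DFunLike.congr_fun this f
  have hlΨ : ∀ f, l (Ψ f) = f := by
    have : (l.comp Ψ1) = e.symm.toMonoidHom := by
      apply FreeGroup.ext_hom
      intro x
      rw [MonoidHom.comp_apply]
      simp only [Ψ1, FreeGroup.lift_apply_of]
      split_ifs with h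
      · rw [hlΨ0]
        change e.symm (j0 _) = e.symm _
        simp only [j0, FreeGroup.map.of]
      · exact Monoid.Coprod.lift_apply_inr _ _ _
    intro f
    have h2 := DFunLike.congr_fun this (e f)
    have h3 : e.symm.toMonoidHom (e f) = f := e.symm_apply_apply f
    rw [h3] at h2
    exact h2
  have hΨH : ∀ h : H, Ψ h = Monoid.Coprod.inl h := by
    have h1 : ∀ f, ∀ hf : f ∈ H₀, Ψ0 f = Monoid.Coprod.inl ⟨j f, hf⟩ := by
      intro f hf
      have hf2 : f ∈ Subgroup.closure S := by rwa [hS.2]
      induction hf2 using Subgroup.closure_induction with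
      | mem s hs =>
        rw [hΨ0 s (Or.inl hs)]
        simp only [g0]
        rw [dif_pos hs]
      | one =>
        rw [map_one]
        have : (⟨j 1, hf⟩ : H) = 1 := Subtype.ext (map_one j)
        rw [this, map_one]
      | mul a b ha hb iha ihb =>
        have ha' : a ∈ H₀ := by rwa [hS.2] at ha
        have hb' : b ∈ H₀ := by rwa [hS.2] at hb
        rw [map_mul, iha ha', ihb hb', ← map_mul]
        congr 1
        exact Subtype.ext (map_mul j a b).symm
      | inv a ha iha =>
        have ha' : a ∈ H₀ := by rwa [hS.2] at ha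
        rw [map_inv, iha ha', ← map_inv]
        congr 1
        exact Subtype.ext (map_inv j a).symm
    rintro ⟨h, hh⟩
    obtain ⟨f, rfl⟩ := hHj hh
    change Ψ (j f) = _
    rw [hΨj]
    exact h1 f hh
  have hΨK : ∀ κ : K', Ψ κ = Monoid.Coprod.inr κ := by
    rintro ⟨κ, hκ⟩
    have hκ2 : κ ∈ Subgroup.closure ((j '' (T' \ S)) ∪
      {f | ∃ x : X, x ∉ X₀ ∧ f = e.symm (FreeGroup.of x)}) := hκ
    change Ψ κ = _
    induction hκ2 using Subgroup.closure_induction with
    | mem s hs =>
      rcases hs with ⟨s, ⟨hs1, hs2⟩, rfl⟩ | ⟨x, hx, rfl⟩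
      · rw [hΨj, hΨ0 s (Or.inr hs1)]
        simp only [g0]
        rw [dif_neg hs2]
      · change Ψ1 (e (e.symm (FreeGroup.of x))) = _
        rw [MulEquiv.apply_symm_apply]
        simp only [Ψ1, FreeGroup.lift_apply_of]
        rw [dif_neg hx]
    | one =>
      rw [map_one]
      have : (⟨1, hκ⟩ : K') = 1 := rfl
      rw [this, map_one]
    | mul a b ha hb iha ihb =>
      rw [map_mul, iha ha, ihb hb, ← map_mul]
      rfl
    | inv a ha iha =>
      rw [map_inv, iha ha, ← map_inv]
      rfl
  have hΨl : ∀ c, Ψ (l c) = c := by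
    have : Ψ.comp l = MonoidHom.id C := by
      apply Monoid.Coprod.hom_ext
      · apply MonoidHom.ext
        intro h
        change Ψ (l (Monoid.Coprod.inl h)) = Monoid.Coprod.inl h
        have h1 : l (Monoid.Coprod.inl h) = h := Monoid.Coprod.lift_apply_inl _ _ _
        rw [h1]
        exact hΨH h
      · apply MonoidHom.ext
        intro h
        change Ψ (l (Monoid.Coprod.inr h)) = Monoid.Coprod.inr h
        have h1 : l (Monoid.Coprod.inr h) = h := Monoid.Coprod.lift_apply_inr _ _ _
        rw [h1]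
        exact hΨK h
    exact fun c => DFunLike.congr_fun this c
  exact ⟨Function.LeftInverse.injective hΨl, Function.RightInverse.surjective hlΨ⟩

end Pool.Agent.Results.MP_b4f2f0_al.StabilizersAreFreeFactors
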